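import Pool.Agent.V5helper29.RLS.Stm

set_option autoImplicit false

open scoped Matrix
open Pool.Agent.V5helper29.RLS

namespace Pool.Agent.V5helper37.RLS

variable {n : ℕ}

lemma nrm_nonneg (v : Fin n → ℝ) : 0 ≤ nrm v := norm_nonneg _

lemma nrm_sq (v : Fin n → ℝ) : nrm v ^ 2 = ∑ i, v i ^ 2 := by
  unfold nrm
  rw [EuclideanSpace.norm_sq_eq]
  simp [sq_abs]

lemma nrm_sq' (v : Fin n → ℝ) : nrm v ^ 2 = v ⬝ᵥ v := by
  rw [nrm_sq]
  simp [dotProduct, sq]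

lemma nrm_add (v w : Fin n → ℝ) : nrm (v + w) ≤ nrm v + nrm w := by
  unfold nrm
  rw [WithLp.toLp_add]
  exact norm_add_le _ _

lemma nrm_sub (v w : Fin n → ℝ) : nrm (v - w) ≤ nrm v + nrm w := by
  unfold nrm
  rw [WithLp.toLp_sub]
  exact norm_sub_le _ _

lemma nrm_neg (v : Fin n → ℝ) : nrm (-v) = nrm v := by
  unfold nrm
  rw [WithLp.toLp_neg]
  exact norm_neg _

lemma nrm_smul (c : ℝ) (v : Fin n → ℝ) : nrm (c • v) = |c| * nrm v := by
  unfold nrm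
  rw [WithLp.toLp_smul]
  exact norm_smul _ _

lemma nrm_zero : nrm (0 : Fin n → ℝ) = 0 := by
  unfold nrm
  simp

lemma nrm_eq_zero {v : Fin n → ℝ} (h : nrm v = 0) : v = 0 := by
  have h2 : ∑ i, v i ^ 2 = 0 := by rw [← nrm_sq, h]; simp
  rw [Finset.sum_eq_zero_iff_of_nonneg (fun i _ => sq_nonneg _)] at h2
  funext i
  have := h2 i (Finset.mem_univ i)
  simpa using this

lemma abs_dot_le (v w : Fin n → ℝ) : |v ⬝ᵥ w| ≤ nrm v * nrm w := by
  have h : (v ⬝ᵥ w) ^ 2 ≤ (nrm v * nrm w) ^ 2 := by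
    rw [mul_pow, nrm_sq, nrm_sq]
    exact Finset.sum_mul_sq_le_sq_mul_sq _ _ _
  exact abs_le_of_sq_le_sq h (mul_nonneg (nrm_nonneg _) (nrm_nonneg _))

lemma abs_coord_le (v : Fin n → ℝ) (i : Fin n) : |v i| ≤ nrm v := by
  have h : (v i) ^ 2 ≤ (nrm v) ^ 2 := by
    rw [nrm_sq]
    exact Finset.single_le_sum (f := fun i => v i ^ 2) (fun i _ => sq_nonneg _) (Finset.mem_univ i)
  exact abs_le_of_sq_le_sq h (nrm_nonneg _)

lemma nrm_single (j : Fin n) : nrm (Pi.single j (1 : ℝ) : Fin n → ℝ) = 1 := by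
  have h : nrm (Pi.single j (1 : ℝ) : Fin n → ℝ) ^ 2 = 1 := by
    rw [nrm_sq]
    rw [Finset.sum_eq_single j]
    · simp
    · intro b _ hb
      simp [Pi.single_apply, hb]
    · simp
  have h0 := nrm_nonneg (Pi.single j (1 : ℝ) : Fin n → ℝ)
  nlinarith

lemma nrm_le_of_entries (v : Fin n → ℝ) (c : ℝ) (hc : 0 ≤ c) (h : ∀ i, |v i| ≤ c) : nrm v ^ 2 ≤ n * c ^ 2 := by
  rw [nrm_sq]
  calc ∑ i, v i ^ 2 ≤ ∑ _i : Fin n, c ^ 2 := by
        apply Finset.sum_le_sum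
        intro i _
        rw [← sq_abs]
        exact pow_le_pow_left₀ (abs_nonneg _) (h i) 2
    _ = n * c ^ 2 := by simp

theorem bd' : S_BD := by
  intro n M c hc
  refine ⟨fun h v => ?_, fun h i j => ?_, fun h v => ?_⟩
  · have h1 : nrm (Mᵀ *ᵥ v) ^ 2 ≤ nrm v * (c * nrm (Mᵀ *ᵥ v)) := by
      rw [nrm_sq']
      have h2 : (Mᵀ *ᵥ v) ⬝ᵥ (Mᵀ *ᵥ v) = v ⬝ᵥ (M *ᵥ (Mᵀ *ᵥ v)) := by
        rw [Matrix.dotProduct_mulVec v M, ← Matrix.mulVec_transpose]
      rw [h2]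
      calc v ⬝ᵥ (M *ᵥ (Mᵀ *ᵥ v)) ≤ |v ⬝ᵥ (M *ᵥ (Mᵀ *ᵥ v))| := le_abs_self _
        _ ≤ nrm v * nrm (M *ᵥ (Mᵀ *ᵥ v)) := abs_dot_le _ _
        _ ≤ nrm v * (c * nrm (Mᵀ *ᵥ v)) := mul_le_mul_of_nonneg_left (h _) (nrm_nonneg _)
    rcases (nrm_nonneg (Mᵀ *ᵥ v)).eq_or_lt with h0 | h0
    · rw [← h0]
      exact mul_nonneg hc (nrm_nonneg _)
    · by_contra hlt
      push Not at hlt
      nlinarith
  · have h1 := abs_coord_le (M *ᵥ Pi.single j 1) i
    have h2 := h (Pi.single j 1)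
    rw [nrm_single, mul_one] at h2
    have h3 : (M *ᵥ Pi.single j 1) i = M i j := by
      rw [Matrix.mulVec_single_one]; rfl
    rw [h3] at h1
    linarith
  · have hs : ∀ i, |(M *ᵥ v) i| ≤ c * ∑ j, |v j| := by
      intro i
      calc |(M *ᵥ v) i| = |∑ j, M i j * v j| := rfl
        _ ≤ ∑ j, |M i j * v j| := Finset.abs_sum_le_sum_abs _ _
        _ ≤ ∑ j, c * |v j| := by
            apply Finset.sum_le_sum
            intro j _
            rw [abs_mul]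
            exact mul_le_mul_of_nonneg_right (h i j) (abs_nonneg _)
        _ = c * ∑ j, |v j| := by rw [Finset.mul_sum]
    have h1 := nrm_le_of_entries (M *ᵥ v) (c * ∑ j, |v j|)
      (mul_nonneg hc (Finset.sum_nonneg fun j _ => abs_nonneg _)) hs
    have h2 : (∑ j, |v j|) ^ 2 ≤ n * nrm v ^ 2 := by
      have := sq_sum_le_card_mul_sum_sq (s := (Finset.univ : Finset (Fin n))) (f := fun j => |v j|)
      simp only [sq_abs, Finset.card_univ, Fintype.card_fin] at this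
      rw [nrm_sq]
      exact this
    have h3 : nrm (M *ᵥ v) ^ 2 ≤ (n * c * nrm v) ^ 2 := by
      calc nrm (M *ᵥ v) ^ 2 ≤ n * (c * ∑ j, |v j|) ^ 2 := h1
        _ = n * c ^ 2 * (∑ j, |v j|) ^ 2 := by ring
        _ ≤ n * c ^ 2 * (n * nrm v ^ 2) := mul_le_mul_of_nonneg_left h2 (by positivity)
        _ = (n * c * nrm v) ^ 2 := by ring
    exact (le_abs_self _).trans (abs_le_of_sq_le_sq h3 (by have := nrm_nonneg v; positivity))

variable {M N : Matrix (Fin n) (Fin n) ℝ} {c d : ℝ}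

lemma bdMono (h : Bd M c) (hcd : c ≤ d) : Bd M d := fun v =>
  (h v).trans (mul_le_mul_of_nonneg_right hcd (nrm_nonneg _))

lemma bdAdd (h : Bd M c) (h' : Bd N d) : Bd (M + N) (c + d) := fun v => by
  rw [Matrix.add_mulVec, add_mul]
  exact (nrm_add _ _).trans (add_le_add (h v) (h' v))

lemma bdSub (h : Bd M c) (h' : Bd N d) : Bd (M - N) (c + d) := fun v => by
  rw [Matrix.sub_mulVec, add_mul]
  exact (nrm_sub _ _).trans (add_le_add (h v) (h' v))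

lemma bdMul (h : Bd M c) (h' : Bd N d) (hc : 0 ≤ c) : Bd (M * N) (c * d) := fun v => by
  rw [← Matrix.mulVec_mulVec, mul_assoc]
  exact (h _).trans (mul_le_mul_of_nonneg_left (h' v) hc)

lemma bdOne : Bd (1 : Matrix (Fin n) (Fin n) ℝ) 1 := fun v => by simp

end Pool.Agent.V5helper37.RLS
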